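import Mathlib
import Pool.Agent.Y530.TB.Stm

/-!
# Contraction of a tight set of bodies
-/

set_option autoImplicit false

namespace Pool.Agent.Y975.TB

open Finset Module Pool.Agent.W824.BJ Pool.Agent.Y530.BB Pool.Agent.Y530.TB

section con

variable {V B : Type}

open Classical in
/-- the contraction of the set `C` to one body -/
noncomputable def qq (C : Finset B) (b : B) : Option {b : B // b ∉ C} :=
  if h : b ∉ C then some ⟨b, h⟩ else none

theorem qq_mem {C : Finset B} {b : B} (h : b ∈ C) : qq C b = none := by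
  unfold qq
  rw [dif_neg (not_not.2 h)]

theorem qq_not {C : Finset B} {b : B} (h : b ∉ C) : qq C b = some ⟨b, h⟩ := by
  unfold qq
  rw [dif_pos h]

theorem qq_surj {C : Finset B} (hC : C.Nonempty) : Function.Surjective (qq C) := by
  intro c
  match c with
  | none =>
    obtain ⟨b, hb⟩ := hC
    exact ⟨b, qq_mem hb⟩
  | some ⟨a, ha⟩ => exact ⟨a, qq_not ha⟩

theorem qq_eq {C : Finset B} {a b : B} (h : qq C a = qq C b) : a = b ∨ (a ∈ C ∧ b ∈ C) := by
  by_cases ha : a ∈ C
  · by_cases hb : b ∈ C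
    · exact Or.inr ⟨ha, hb⟩
    · rw [qq_mem ha, qq_not hb] at h
      exact absurd h (by simp)
  · by_cases hb : b ∈ C
    · rw [qq_not ha, qq_mem hb] at h
      exact absurd h (by simp)
    · rw [qq_not ha, qq_not hb] at h
      left
      simpa using h

open Classical in
theorem card_qq [Fintype B] (C : Finset B) :
    Fintype.card (Option {b : B // b ∉ C}) + C.card = Fintype.card B + 1 := by
  have hCB : C.card ≤ Fintype.card B := Finset.card_le_univ C
  rw [Fintype.card_option, Fintype.card_subtype_compl]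
  simp only [Fintype.card_coe]
  omega

/-- the bodies of a tight set move together -/
theorem const_of_tight [Fintype V] [Fintype B] (β : V → B) (χ : V → Fin 3)
    (Q1 : Finset (Finset (Sym2 V))) (hP : PQ Q1.card) (hB : Bun β χ Q1) (hS : Sp2 β Q1)
    (C : Finset B) (hC : C.Nonempty) (hin : ∀ e ∈ Q1, ∀ x ∈ e, ∀ v ∈ x, β v ∈ C)
    (hc : Q1.card + 2 = 2 * C.card) :
    ∀ n ∈ GB β (bs Q1), ∀ b ∈ C, ∀ b' ∈ C, n b = n b' := by
  classical
  have hIH := hP V B β χ Q1 hB rfl hS
  have htop : GB (qq C ∘ β) (bs Q1) = ⊤ := by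
    rw [eq_top_iff]
    intro m _ u v huv
    obtain ⟨e, he, hxe⟩ := mem_bs.1 huv
    have h1 := hin e he _ hxe
    have h2 : (qq C ∘ β) u = (qq C ∘ β) v :=
      (qq_mem (h1 u (Sym2.mem_mk_left u v))).trans (qq_mem (h1 v (Sym2.mem_mk_right u v))).symm
    rw [h2, sub_self, pr_zero]
  have hcardq := card_qq C
  have h1 : (GB (qq C ∘ β) (bs Q1)).map (pl (qq C)) = GB β (bs Q1) := by
    apply Submodule.eq_of_le_of_finrank_eq
    · rintro _ ⟨m, hm, rfl⟩
      exact (pl_mem (qq C)).1 hm
    · rw [← (Submodule.equivMapOfInjective (pl (qq C)) (pl_inj (qq_surj hC)) _).finrank_eq, htop,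
        finrank_top']
      unfold gb at hIH
      omega
  intro n hn b hb b' hb'
  rw [← h1] at hn
  obtain ⟨m, -, rfl⟩ := hn
  change m (qq C b) = m (qq C b')
  rw [qq_mem hb, qq_mem hb']

theorem IsBd.comp {B' : Type} {β : V → B} {χ : V → Fin 3} {b b' : B} {e : Finset (Sym2 V)}
    (h : IsBd β χ b b' e) (q : B → B') : IsBd (q ∘ β) χ (q b) (q b') e := by
  obtain ⟨f, g, h1, h2, h3, h4, h5⟩ := h
  exact ⟨f, g, h1, h2, fun k => congrArg q (h3 k), fun k => congrArg q (h4 k), h5⟩

/-- the bundles outside a tight set, after its contraction -/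
theorem bun_con {β : V → B} {χ : V → Fin 3} {Q : Finset (Finset (Sym2 V))} (hB : Bun β χ Q)
    (C : Finset B) {Q2 : Finset (Finset (Sym2 V))} (h2 : Q2 ⊆ Q) (h3 : ∀ e ∈ Q2, e ∉ qi β Q C) :
    Bun (qq C ∘ β) χ Q2 := by
  refine ⟨fun e he => ?_, fun e he e' he' hne => hB.2 e (h2 he) e' (h2 he') hne⟩
  obtain ⟨b, b', hbb, hb⟩ := hB.1 e (h2 he)
  refine ⟨qq C b, qq C b', ?_, IsBd.comp hb _⟩
  intro h
  rcases qq_eq h with h | h
  · exact hbb h
  · exact h3 e he (mem_qi.2 ⟨h2 he, (hb.mem_iff C).2 h⟩)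

/-- the contraction of a tight set preserves the count -/
theorem sp2_con [Fintype B] [DecidableEq (Finset (Sym2 V))] {β : V → B}
    {Q : Finset (Finset (Sym2 V))} (hS : Sp2 β Q)
    (C : Finset B) (hC : C.Nonempty) (hc : (qi β Q C).card + 2 = 2 * C.card) :
    Sp2 (qq C ∘ β) (Q \ qi β Q C) := by
  classical
  intro C' hC'
  set D : Finset B := univ.filter fun b => qq C b ∈ C' with hD
  have hmemD : ∀ b, b ∈ D ↔ qq C b ∈ C' := fun b => by rw [hD]; simp
  have hDne : D.Nonempty := by
    obtain ⟨c, hc'⟩ := hC'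
    obtain ⟨b, hb⟩ := qq_surj hC c
    exact ⟨b, (hmemD b).2 (by rw [hb]; exact hc')⟩
  have hsub : qi (qq C ∘ β) (Q \ qi β Q C) C' ⊆ qi β Q D := by
    intro e he
    rw [mem_qi] at he ⊢
    exact ⟨(Finset.mem_sdiff.1 he.1).1, fun x hx v hv => (hmemD _).2 (he.2 x hx v hv)⟩
  have hSD := hS D hDne
  by_cases hnone : (none : Option {b : B // b ∉ C}) ∈ C'
  · have hCD : C ⊆ D := fun b hb => (hmemD b).2 (by rw [qq_mem hb]; exact hnone)
    have h1 : (D \ C).card ≤ (C'.erase none).card := by
      apply Finset.card_le_card_of_injOn (qq C)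
      · intro b hb
        have hb' := Finset.mem_sdiff.1 (Finset.mem_coe.1 hb)
        refine Finset.mem_coe.2 (Finset.mem_erase.2 ⟨?_, (hmemD b).1 hb'.1⟩)
        rw [qq_not hb'.2]
        simp
      · intro a ha b hb hab
        rcases qq_eq hab with h | h
        · exact h
        · exact absurd h.1 (Finset.mem_sdiff.1 (Finset.mem_coe.1 ha)).2
    have h2 := Finset.card_erase_add_one hnone
    have h3 := Finset.card_sdiff_add_card_eq_card hCD
    have hdis : Disjoint (qi (qq C ∘ β) (Q \ qi β Q C) C') (qi β Q C) := by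
      rw [Finset.disjoint_left]
      intro e he he'
      exact (Finset.mem_sdiff.1 (qi_subset _ _ _ he)).2 he'
    have h4 : qi (qq C ∘ β) (Q \ qi β Q C) C' ∪ qi β Q C ⊆ qi β Q D :=
      Finset.union_subset hsub (qi_mono (Finset.Subset.refl _) hCD)
    have h5 := Finset.card_le_card h4
    rw [Finset.card_union_of_disjoint hdis] at h5
    omega
  · have h1 : D.card ≤ C'.card := by
      apply Finset.card_le_card_of_injOn (qq C)
      · intro b hb
        exact Finset.mem_coe.2 ((hmemD b).1 (Finset.mem_coe.1 hb))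
      · intro a ha b hb hab
        rcases qq_eq hab with h | h
        · exact h
        · exfalso
          apply hnone
          rw [← qq_mem h.1]
          exact (hmemD a).1 (Finset.mem_coe.1 ha)
    have h2 := Finset.card_le_card hsub
    omega

end con

namespace Ctr

/-- contraction of a tight set of bodies -/
theorem t : S_CON := by
  classical
  intro N hPQ V B _ _ β χ Q hB hN hS C hC2 hCc hne
  have hC : C.Nonempty := Finset.card_pos.1 (by omega)
  have hsub : qi β Q C ⊆ Q := qi_subset β Q C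
  have hlt : (qi β Q C).card < N := by
    rw [← hN]
    exact Finset.card_lt_card (Finset.ssubset_iff_subset_ne.2 ⟨hsub, hne⟩)
  have hconst := const_of_tight β χ (qi β Q C) (hPQ _ hlt) (hB.mono hsub) (hS.mono hsub) C hC
    (fun e he => (mem_qi.1 he).2) hCc
  have hgb : gb (qq C ∘ β) (bs Q) = gb β (bs Q) := by
    apply finrank_pl_eq (qq_surj hC) β (bs Q) (gx V)
    intro n hn a b hab
    rcases qq_eq hab with rfl | ⟨ha, hb⟩
    · rfl
    · exact hconst n (BM_anti (bs_mono hsub) _ hn) a ha b hb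
  have hgb2 : gb (qq C ∘ β) (bs (Q \ qi β Q C)) = gb (qq C ∘ β) (bs Q) := by
    unfold gb GB
    rw [BM_cross (qq C ∘ β) (gx V) (bs_mono Finset.sdiff_subset)]
    intro u v huv hne'
    obtain ⟨e, he, hx⟩ := mem_bs.1 huv
    refine mem_bs.2 ⟨e, Finset.mem_sdiff.2 ⟨he, ?_⟩, hx⟩
    intro he'
    have h1 := (mem_qi.1 he').2 _ hx
    exact hne' ((qq_mem (h1 u (Sym2.mem_mk_left u v))).trans
      (qq_mem (h1 v (Sym2.mem_mk_right u v))).symm)
  have hcard := Finset.card_sdiff_add_card_eq_card hsub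
  have hcardq := card_qq C
  have h2 := hPQ (Q \ qi β Q C).card (by omega) V (Option {b : B // b ∉ C}) (qq C ∘ β) χ
    (Q \ qi β Q C) (bun_con hB C Finset.sdiff_subset fun e he => (Finset.mem_sdiff.1 he).2) rfl
    (sp2_con hS C hC hCc)
  omega

end Ctr

end Pool.Agent.Y975.TB
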